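import Pool.Agent.W_MP_57cfa6_lc.Valid

set_option autoImplicit false

namespace Pool.Agent.Results.MP_57cfa6_lc.Incompleteness

open Pool.Agent.W_MP_57cfa6_lc

universe u

/-- The homotopical semantics is not complete for intuitionistic logic: some sentence is true in
every structure in Kan complexes, but is not derivable in intuitionistic first-order logic with
equality, and is not even derivable from the instances `ψ ∨ ¬ ψ` of excluded middle for
sentences `ψ`. -/
theorem result : ∃ (σ : Signature) (φ : Formula (σ := σ) []),
    (∀ M : KanStructure.{u} σ, M.Holds φ) ∧ ¬ Proves ∅ φ ∧ ¬ Proves (closedEM σ) φ := by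
  refine ⟨oneSort, wem, holds_wem, ?_, not_proves_wem⟩
  intro h
  have h1 := lineModel.sound h (fun _ x => nomatch x)
  have h2 : lineModel.hyps (∅ : Set (Formula (σ := oneSort) [])) (fun _ x => nomatch x) = ⊤ := by
    unfold FModel.hyps
    simp
  rw [h2, top_le_iff] at h1
  exact lineModel_wem _ h1

end Pool.Agent.Results.MP_57cfa6_lc.Incompleteness
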